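import Pool.Agent.Helper3.FC.Goals

/-!
# Project FC: finitely supported weights
-/

set_option autoImplicit false

namespace Pool.Agent.Helper3.FC

open scoped Classical BigOperators
open Finset

theorem ex_eq_sum (f : ℕ →₀ ℝ) (φ : ℕ → ℝ) (s : Finset ℕ) (hs : f.support ⊆ s) :
    ex f φ = ∑ u ∈ s, f u * φ u := by
  unfold ex
  exact Finsupp.sum_of_support_subset f hs _ (by simp)

theorem ex_add (f g : ℕ →₀ ℝ) (φ : ℕ → ℝ) : ex (f + g) φ = ex f φ + ex g φ := by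
  unfold ex
  exact Finsupp.sum_add_index' (by simp) (by intros; ring)

theorem ex_zero (φ : ℕ → ℝ) : ex 0 φ = 0 := by simp [ex]

theorem ex_smul (c : ℝ) (f : ℕ →₀ ℝ) (φ : ℕ → ℝ) : ex (c • f) φ = c * ex f φ := by
  rw [ex_eq_sum (c • f) φ f.support Finsupp.support_smul, ex_eq_sum f φ f.support subset_rfl,
    Finset.mul_sum]
  exact Finset.sum_congr rfl fun u _ => by simp [mul_assoc]

theorem ex_sum {ι : Type*} (s : Finset ι) (f : ι → ℕ →₀ ℝ) (φ : ℕ → ℝ) :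
    ex (∑ i ∈ s, f i) φ = ∑ i ∈ s, ex (f i) φ := by
  induction s using Finset.induction_on with
  | empty => simp [ex_zero]
  | insert a s ha ih => rw [Finset.sum_insert ha, Finset.sum_insert ha, ex_add, ih]

theorem ex_single (u : ℕ) (x : ℝ) (φ : ℕ → ℝ) : ex (Finsupp.single u x) φ = x * φ u := by
  unfold ex
  exact Finsupp.sum_single_index (by simp)

theorem ex_nonneg {f : ℕ →₀ ℝ} {φ : ℕ → ℝ} (hf : ∀ u, 0 ≤ f u) (hφ : ∀ u, f u ≠ 0 → 0 ≤ φ u) :
    0 ≤ ex f φ := by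
  rw [ex_eq_sum f φ f.support subset_rfl]
  exact Finset.sum_nonneg fun u hu => mul_nonneg (hf u) (hφ u (Finsupp.mem_support_iff.1 hu))

theorem ex_mono {f : ℕ →₀ ℝ} {φ ψ : ℕ → ℝ} (hf : ∀ u, 0 ≤ f u) (h : ∀ u, f u ≠ 0 → φ u ≤ ψ u) :
    ex f φ ≤ ex f ψ := by
  rw [ex_eq_sum f φ f.support subset_rfl, ex_eq_sum f ψ f.support subset_rfl]
  exact Finset.sum_le_sum fun u hu =>
    mul_le_mul_of_nonneg_left (h u (Finsupp.mem_support_iff.1 hu)) (hf u)

theorem ex_congr {f : ℕ →₀ ℝ} {φ ψ : ℕ → ℝ} (h : ∀ u, f u ≠ 0 → φ u = ψ u) :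
    ex f φ = ex f ψ := by
  rw [ex_eq_sum f φ f.support subset_rfl, ex_eq_sum f ψ f.support subset_rfl]
  exact Finset.sum_congr rfl fun u hu => by rw [h u (Finsupp.mem_support_iff.1 hu)]

theorem ex_const_mul (f : ℕ →₀ ℝ) (c : ℝ) (φ : ℕ → ℝ) :
    ex f (fun u => c * φ u) = c * ex f φ := by
  rw [ex_eq_sum f _ f.support subset_rfl, ex_eq_sum f φ f.support subset_rfl, Finset.mul_sum]
  exact Finset.sum_congr rfl fun u _ => by ring

theorem ex_const {f : ℕ →₀ ℝ} (hf : IsProb f) (c : ℝ) : ex f (fun _ => c) = c := by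
  have := ex_const_mul f c (fun _ => 1)
  simp only [mul_one] at this
  rw [this, hf.2, mul_one]

theorem ex_le_of_le {f : ℕ →₀ ℝ} (hf : IsProb f) {φ : ℕ → ℝ} {c : ℝ}
    (h : ∀ u, f u ≠ 0 → φ u ≤ c) : ex f φ ≤ c := by
  rw [← ex_const hf c]
  exact ex_mono hf.1 h

/-- a small set of vertices has small weight -/
theorem ex_mem_le {f : ℕ →₀ ℝ} {Q d : ℕ} (hf : ∀ u, f u ≤ 2 / Q)
    (s : Finset ℕ) (hs : s.card ≤ d) : ex f (fun u => if u ∈ s then 1 else 0) ≤ 2 * d / Q := by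
  rw [ex_eq_sum f _ (f.support ∪ s) subset_union_left]
  have : ∑ u ∈ f.support ∪ s, f u * (if u ∈ s then (1 : ℝ) else 0) = ∑ u ∈ s, f u := by
    rw [← Finset.sum_filter_add_sum_filter_not (f.support ∪ s) (fun u => u ∈ s)]
    have h1 : ((f.support ∪ s).filter fun u => u ∈ s) = s := by
      ext u; simp
    rw [h1]
    have h2 : ∑ u ∈ (f.support ∪ s).filter (fun u => ¬ u ∈ s), f u * (if u ∈ s then (1 : ℝ) else 0)
        = 0 := Finset.sum_eq_zero fun u hu => by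
      rw [if_neg (Finset.mem_filter.1 hu).2, mul_zero]
    rw [h2, add_zero]
    exact Finset.sum_congr rfl fun u hu => by rw [if_pos hu, mul_one]
  rw [this]
  calc ∑ u ∈ s, f u ≤ ∑ _u ∈ s, (2 / Q : ℝ) := Finset.sum_le_sum fun u _ => hf u
    _ = s.card * (2 / Q) := by rw [Finset.sum_const, nsmul_eq_mul]
    _ ≤ d * (2 / Q) := by
        apply mul_le_mul_of_nonneg_right (by exact_mod_cast hs) (by positivity)
    _ = 2 * d / Q := by ring

theorem mass_nonneg {I : Set ℕ} {f : ℕ →₀ ℝ} (hf : ∀ u, 0 ≤ f u) : 0 ≤ mass I f :=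
  ex_nonneg hf fun u _ => by split_ifs <;> norm_num

theorem mass_le_one {I : Set ℕ} {f : ℕ →₀ ℝ} (hf : IsProb f) : mass I f ≤ 1 :=
  ex_le_of_le hf fun u _ => by split_ifs <;> norm_num

theorem mass_single (I : Set ℕ) (u : ℕ) :
    mass I (Finsupp.single u 1) = if u ∈ I then 1 else 0 := by
  rw [mass, ex_single, one_mul]

theorem isProb_single (u : ℕ) : IsProb (Finsupp.single u (1 : ℝ)) := by
  refine ⟨fun v => ?_, by rw [ex_single, one_mul]⟩
  rw [Finsupp.single_apply]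
  split_ifs <;> norm_num

/-- convex combinations -/
theorem isProb_comb {ι : Type*} (s : Finset ι) (c : ι → ℝ) (f : ι → ℕ →₀ ℝ)
    (hc : ∀ i ∈ s, 0 ≤ c i) (hs : ∑ i ∈ s, c i = 1) (hf : ∀ i ∈ s, IsProb (f i)) :
    IsProb (∑ i ∈ s, c i • f i) := by
  constructor
  · intro u
    rw [Finsupp.finsetSum_apply]
    exact Finset.sum_nonneg fun i hi => by
      rw [Finsupp.smul_apply, smul_eq_mul]
      exact mul_nonneg (hc i hi) ((hf i hi).1 u)
  · rw [ex_sum]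
    refine Eq.trans (Finset.sum_congr rfl fun i hi => ?_) hs
    rw [ex_smul, (hf i hi).2, mul_one]

theorem mass_comb {ι : Type*} (s : Finset ι) (c : ι → ℝ) (f : ι → ℕ →₀ ℝ) (I : Set ℕ) :
    mass I (∑ i ∈ s, c i • f i) = ∑ i ∈ s, c i * mass I (f i) := by
  unfold mass
  rw [ex_sum]
  exact Finset.sum_congr rfl fun i _ => ex_smul _ _ _

theorem comb_le {ι : Type*} (s : Finset ι) (c : ι → ℝ) (f : ι → ℕ →₀ ℝ) (b : ℝ) (u : ℕ)
    (hc : ∀ i ∈ s, 0 ≤ c i) (hs : ∑ i ∈ s, c i = 1) (hf : ∀ i ∈ s, f i u ≤ b) :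
    (∑ i ∈ s, c i • f i) u ≤ b := by
  rw [Finsupp.finsetSum_apply]
  calc ∑ i ∈ s, (c i • f i) u ≤ ∑ i ∈ s, c i * b := Finset.sum_le_sum fun i hi => by
        rw [Finsupp.smul_apply, smul_eq_mul]
        exact mul_le_mul_of_nonneg_left (hf i hi) (hc i hi)
    _ = b := by rw [← Finset.sum_mul, hs, one_mul]

theorem comb_ne {ι : Type*} (s : Finset ι) (c : ι → ℝ) (f : ι → ℕ →₀ ℝ) (u : ℕ)
    (h : (∑ i ∈ s, c i • f i) u ≠ 0) : ∃ i ∈ s, c i ≠ 0 ∧ f i u ≠ 0 := by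
  by_contra hn
  push Not at hn
  apply h
  rw [Finsupp.finsetSum_apply]
  refine Finset.sum_eq_zero fun i hi => ?_
  rw [Finsupp.smul_apply, smul_eq_mul]
  by_cases hc : c i = 0
  · rw [hc, zero_mul]
  · rw [hn i hi hc, mul_zero]

/-- the uniform average over the levels -/
noncomputable def av {T : Type*} (L : ℕ) (ν : ℕ → T → ℕ →₀ ℝ) (τ : T) : ℕ →₀ ℝ :=
  ∑ j ∈ Finset.range L, (1 / L : ℝ) • ν j τ

theorem sum_w (L : ℕ) (hL : 1 ≤ L) : ∑ _j ∈ Finset.range L, (1 / L : ℝ) = 1 := by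
  rw [Finset.sum_const, Finset.card_range, nsmul_eq_mul]
  have : (L : ℝ) ≠ 0 := by positivity
  field_simp

section
variable {T : Type*} {L : ℕ} {ν : ℕ → T → ℕ →₀ ℝ}

theorem av_prob (hL : 1 ≤ L) (τ : T) (h : ∀ j < L, IsProb (ν j τ)) : IsProb (av L ν τ) :=
  isProb_comb _ _ _ (fun _ _ => by positivity) (sum_w L hL) fun j hj => h j (Finset.mem_range.1 hj)

theorem av_le (hL : 1 ≤ L) (τ : T) (b : ℝ) (u : ℕ) (h : ∀ j < L, ν j τ u ≤ b) :
    av L ν τ u ≤ b :=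
  comb_le _ _ _ _ _ (fun _ _ => by positivity) (sum_w L hL) fun j hj => h j (Finset.mem_range.1 hj)

theorem av_ne (τ : T) (u : ℕ) (h : av L ν τ u ≠ 0) : ∃ j < L, ν j τ u ≠ 0 := by
  obtain ⟨j, hj, -, h⟩ := comb_ne _ _ _ _ h
  exact ⟨j, Finset.mem_range.1 hj, h⟩

theorem av_mass (I : Set ℕ) (τ : T) :
    mass I (av L ν τ) = (∑ j ∈ Finset.range L, mass I (ν j τ)) / L := by
  unfold av
  rw [mass_comb, Finset.sum_div]
  exact Finset.sum_congr rfl fun j _ => by ring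
end

theorem mix_sum {ι : Type*} (s : Finset ι) (c : ι → ℝ) (η : ℝ) (y : ι → ℕ → ℝ) (j : ℕ) :
    ∑ i ∈ s, c i * mix η (y i) j = mix η (fun k => ∑ i ∈ s, c i * y i k) j := by
  induction j with
  | zero => simp [mix]
  | succ j ih =>
    simp only [mix]
    rw [← ih, Finset.mul_sum, Finset.mul_sum, ← Finset.sum_add_distrib]
    exact Finset.sum_congr rfl fun i _ => by ring

theorem Indep.anti {N N' : ℕ} {nb nb' : ℕ → Finset ℕ} {I : Set ℕ} (hN : N ≤ N')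
    (h : ∀ v < N, nb' v = nb v) (hI : Indep N' nb' I) : Indep N nb I := fun v hv hvI u hu =>
  hI v (lt_of_lt_of_le hv hN) hvI u (by rw [h v hv]; exact hu)

end Pool.Agent.Helper3.FC
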