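import Mathlib

/-!
# Project FC (MP_766b49_co): definitions and goals

A graph on `{0, .., N-1}` is given by the sets `nb v` of earlier neighbours. A chain extends such a
graph by `L` levels; the mixture of the earlier levels is used for the self neighbours.
-/

set_option autoImplicit false

namespace Pool.Agent.Helper3.FC

open scoped Classical BigOperators

/-- `nb v` (`v < N`) has at most `d` elements, all earlier than `v`, and is independent. -/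
def Good (d N : ℕ) (nb : ℕ → Finset ℕ) : Prop :=
  ∀ v < N, (∀ u ∈ nb v, u < v) ∧ (nb v).card ≤ d ∧ ∀ a ∈ nb v, ∀ b ∈ nb v, a ∉ nb b

/-- independence below `N` -/
def Indep (N : ℕ) (nb : ℕ → Finset ℕ) (I : Set ℕ) : Prop :=
  ∀ v < N, v ∈ I → ∀ u ∈ nb v, u ∉ I

/-- expectation of `φ` for the finitely supported weight `f` -/
noncomputable def ex (f : ℕ →₀ ℝ) (φ : ℕ → ℝ) : ℝ := f.sum fun u x => x * φ u

/-- the weight of the set `I` -/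
noncomputable def mass (I : Set ℕ) (f : ℕ →₀ ℝ) : ℝ := ex f fun u => if u ∈ I then 1 else 0

def IsProb (f : ℕ →₀ ℝ) : Prop := (∀ u, 0 ≤ f u) ∧ ex f (fun _ => 1) = 1

def IsSub (f : ℕ →₀ ℝ) : Prop := (∀ u, 0 ≤ f u) ∧ ex f (fun _ => 1) ≤ 1

/-- `m_0 = 0`, `m_(j+1) = (1 - η) m_j + η y_j` -/
noncomputable def mix (η : ℝ) (y : ℕ → ℝ) : ℕ → ℝ
  | 0 => 0
  | j + 1 => (1 - η) * mix η y j + η * y j

/-- GOAL OL (one level): the vertices `(τ, t, λ)`, `t` a tuple of neighbours (or none) with an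
independent set of values, `λ < Q` a label. -/
def OLStmt : Prop :=
  ∀ (d N : ℕ) (nb : ℕ → Finset ℕ), Good d N nb →
  ∀ (T : Type) [Fintype T] (C : Type) [Fintype C], Fintype.card C ≤ d →
  ∀ (base : T → C → ℕ →₀ ℝ), (∀ τ c, IsSub (base τ c)) →
    (∀ τ c u, base τ c u ≠ 0 → u < N) →
    (∀ τ, ∑ c, ∑ c', ex (base τ c') (fun u' => ex (base τ c)
      (fun u => if u ∈ nb u' then 1 else 0)) ≤ 1 / 2) →
  ∀ Q : ℕ, 1 ≤ Q →
  ∃ (N' : ℕ) (nb' : ℕ → Finset ℕ) (ν : T → ℕ →₀ ℝ),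
    N ≤ N' ∧ (∀ v < N, nb' v = nb v) ∧ Good d N' nb' ∧
    (∀ τ, IsProb (ν τ)) ∧ (∀ τ v, ν τ v ≠ 0 → N ≤ v ∧ v < N') ∧ (∀ τ v, ν τ v ≤ 2 / Q) ∧
    (∀ τ τ' v, ν τ v ≠ 0 → ν τ' v ≠ 0 → τ = τ') ∧
    (∀ τ v, ν τ v ≠ 0 → ∀ u ∈ nb' v, ∃ c, base τ c u ≠ 0) ∧
    (∀ τ u, ex (ν τ) (fun v => if u ∈ nb' v then 1 else 0) ≤ 2 * ∑ c, base τ c u) ∧
    (∀ I : Set ℕ, Indep N' nb' I → ∀ τ,
      mass I (ν τ) ≤ 2 * ∏ c, (1 - mass I (base τ c)))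

/-- GOAL CL (chain): `L` levels with `k2` self neighbours, chosen from the mixture of the earlier
levels over the templates `τ'` with the weights `ker τ τ'`. -/
def CLStmt : Prop :=
  ∀ (d N : ℕ) (nb : ℕ → Finset ℕ), Good d N nb →
  ∀ (T : Type) [Fintype T] (C : Type) [Fintype C] (k2 : ℕ), Fintype.card C + k2 ≤ d →
  ∀ (base : T → C → ℕ →₀ ℝ), (∀ τ c, IsProb (base τ c)) →
    (∀ τ c u, base τ c u ≠ 0 → u < N) →
  ∀ (ker : T → T → ℝ), (∀ τ τ', 0 ≤ ker τ τ') → (∀ τ, ∑ τ', ker τ τ' = 1) →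
  ∀ (η : ℝ), 0 ≤ η → η ≤ 1 → ∀ (Q : ℕ), 32 * d ^ 4 ≤ Q → 1 ≤ Q →
    (∀ τ c c', ex (base τ c') (fun u' => ex (base τ c)
      (fun u => if u ∈ nb u' then 1 else 0)) ≤ 2 * d / Q) →
    (∀ τ c c', ∑ τ', ker τ τ' * ex (base τ c) (fun u => base τ' c' u) ≤ 2 * d / Q) →
  ∀ L : ℕ,
  ∃ (N' : ℕ) (nb' : ℕ → Finset ℕ) (ν : ℕ → T → ℕ →₀ ℝ),
    N ≤ N' ∧ (∀ v < N, nb' v = nb v) ∧ Good d N' nb' ∧
    (∀ j < L, ∀ τ, IsProb (ν j τ)) ∧ (∀ j < L, ∀ τ v, ν j τ v ≠ 0 → N ≤ v ∧ v < N') ∧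
    (∀ j < L, ∀ τ v, ν j τ v ≤ 2 / Q) ∧
    (∀ j < L, ∀ j' < L, ∀ τ τ' v, ν j τ v ≠ 0 → ν j' τ' v ≠ 0 → τ = τ') ∧
    (∀ j < L, ∀ τ v, ν j τ v ≠ 0 → ∀ u ∈ nb' v,
      (∃ c, base τ c u ≠ 0) ∨ ∃ j' < L, ∃ τ', ker τ τ' ≠ 0 ∧ ν j' τ' u ≠ 0) ∧
    (∀ j < L, ∀ τ, ∀ u < N,
      ex (ν j τ) (fun v => if u ∈ nb' v then 1 else 0) ≤ 2 * ∑ c, base τ c u) ∧
    (∀ I : Set ℕ, Indep N' nb' I → ∀ j < L, ∀ τ,
      mass I (ν j τ) ≤ 2 * (∏ c, (1 - mass I (base τ c))) *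
        (1 - ∑ τ', ker τ τ' * mix η (fun i => mass I (ν i τ')) j) ^ k2)

/-- The densities of one independent set in the graph of the construction, `d = 4 m`. -/
structure World (m n w kz L : ℕ) (η : ℝ) where
  J : Fin n → Type
  fin : ∀ l, Fintype (J l)
  /-- weights of the groups of the block `l` -/
  ρ : ∀ l, J l → ℝ
  ρ_nonneg : ∀ l i, 0 ≤ ρ l i
  ρ_sum : ∀ l, ∑ i, ρ l i = 1
  /-- the free groups -/
  F : ∀ l, J l → Prop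
  /-- level densities of the copies -/
  y0 : ℕ → Fin n → Fin w → ℝ
  y0_nonneg : ∀ j < L, ∀ l k, 0 ≤ y0 j l k
  y0_le : ∀ j < L, ∀ l k, y0 j l k ≤ 1
  y0_chain : ∀ j < L, ∀ l k, y0 j l k ≤ 2 * (1 - mix η (fun i => y0 i l k) j) ^ (4 * m)
  F_mass : ∀ l, ∑ i, (if F l i then ρ l i else 0) =
    ∏ k, (1 - (∑ j ∈ Finset.range L, y0 j l k) / L)
  yX : ℕ → (∀ l, J l) → ℝ
  yX_nonneg : ∀ j < L, ∀ g, 0 ≤ yX j g
  yX_le : ∀ j < L, ∀ g, yX j g ≤ 1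
  yX_chain : ∀ j < L, ∀ g, yX j g ≤ 2 * (if ∀ l, F l (g l) then 1 else 0) *
    (1 - mix η (fun i => ∑ g' : ∀ l, J l, (∏ l, ρ l (g' l)) * yX i g') j) ^ (2 * m)
  yV : ℕ → (l : Fin n) → J l → ℝ
  yV_nonneg : ∀ j < L, ∀ l i, 0 ≤ yV j l i
  yV_le : ∀ j < L, ∀ l i, yV j l i ≤ 1
  yV_chain : ∀ j < L, ∀ l i, yV j l i ≤
    2 * (1 - (∑ j' ∈ Finset.range L, ∑ g : ∀ l, J l,
      (if g l = i then ∏ l' ∈ Finset.univ.erase l, ρ l' (g l') else 0) * yX j' g) / L) ^ m *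
    (1 - mix η (fun j' => yV j' l i) j) ^ (3 * m)
  yZ : ℕ → (l : Fin n) → J l → ℝ
  yZ_nonneg : ∀ j < L, ∀ l i, 0 ≤ yZ j l i
  yZ_le : ∀ j < L, ∀ l i, yZ j l i ≤ 1
  yZ_chain : ∀ j < L, ∀ l i, yZ j l i ≤
    2 * (1 - (∑ j' ∈ Finset.range L, yV j' l i) / L) ^ (3 * m) *
    (1 - mix η (fun j' => yZ j' l i) j) ^ m
  yP : ℕ → (∀ l, J l) → ℝ
  yP_nonneg : ∀ j < L, ∀ g, 0 ≤ yP j g
  yP_le : ∀ j < L, ∀ g, yP j g ≤ 1
  yP_chain : ∀ j < L, ∀ g, yP j g ≤ 2 * ((if ∀ l, F l (g l) then 1 else 0) *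
      ∏ l, (1 - (∑ j' ∈ Finset.range L, yZ j' l (g l)) / L) ^ kz) *
    (1 - mix η (fun i => ∑ g' : ∀ l, J l, (∏ l, ρ l (g' l)) * yP i g') j) ^ m

attribute [instance] World.fin

namespace World

variable {m n w kz L : ℕ} {η : ℝ} (W : World m n w kz L η)

/-- density in the copy `(l,k)` -/
noncomputable def a (l : Fin n) (k : Fin w) : ℝ := (∑ j ∈ Finset.range L, W.y0 j l k) / L

/-- product weight of a template -/
noncomputable def R (g : ∀ l, W.J l) : ℝ := ∏ l, W.ρ l (g l)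

/-- density in the level `j` of X -/
noncomputable def YX (j : ℕ) : ℝ := ∑ g : ∀ l, W.J l, W.R g * W.yX j g

/-- density in the level `j` of Z' -/
noncomputable def YP (j : ℕ) : ℝ := ∑ g : ∀ l, W.J l, W.R g * W.yP j g

/-- density in the X-vertices with the group `i` in the block `l` -/
noncomputable def x (l : Fin n) (i : W.J l) : ℝ :=
  (∑ j ∈ Finset.range L, ∑ g : ∀ l, W.J l,
      (if g l = i then ∏ l' ∈ Finset.univ.erase l, W.ρ l' (g l') else 0) * W.yX j g) / L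

noncomputable def v (l : Fin n) (i : W.J l) : ℝ := (∑ j ∈ Finset.range L, W.yV j l i) / L

noncomputable def z (l : Fin n) (i : W.J l) : ℝ := (∑ j ∈ Finset.range L, W.yZ j l i) / L

/-- average over the blocks and the groups -/
noncomputable def E (φ : ∀ l, W.J l → ℝ) : ℝ := (∑ l, ∑ i, W.ρ l i * φ l i) / n

/-- the five class densities -/
noncomputable def A : ℝ := (∑ l, ∑ k, W.a l k) / (n * w)
noncomputable def X : ℝ := (∑ j ∈ Finset.range L, W.YX j) / L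
noncomputable def V : ℝ := W.E W.v
noncomputable def Z : ℝ := W.E W.z
noncomputable def P : ℝ := (∑ j ∈ Finset.range L, W.YP j) / L

/-- total weight of the independent set -/
noncomputable def tot : ℝ :=
  (510 * W.A + 138 * W.X + 138 * W.V + 46 * W.Z + 20 * W.P) / 852

end World

/-- GOAL GB (graph): for every independent set there is a World with its weight. -/
def GBStmt : Prop :=
  ∀ (m n w kz L : ℕ) (η : ℝ), 1 ≤ m → 1 ≤ n → 1 ≤ w → 1 ≤ L → n * w ≤ 2 * m → n * kz ≤ m →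
    0 ≤ η → η ≤ 1 →
    ∃ (N : ℕ) (nb : ℕ → Finset ℕ) (Ω : ℕ →₀ ℝ), Good (4 * m) N nb ∧ IsProb Ω ∧
      (∀ v, Ω v ≠ 0 → v < N) ∧
      ∀ I : Set ℕ, Indep N nb I → ∃ W : World m n w kz L η, mass I Ω = W.tot

/-- the parameters -/
noncomputable def pn (m : ℕ) : ℕ := ⌊Real.log (4 * m) / (4 * Real.log 2)⌋₊
noncomputable def pw (m : ℕ) : ℕ := 2 * m / pn m
noncomputable def pk (m : ℕ) : ℕ := m / pn m
noncomputable def Lam (m : ℕ) : ℝ := Real.log (4 * m) / (4 * m)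
noncomputable def pη (m : ℕ) : ℝ := Lam m / 100000

/-- GOAL AN (analysis) -/
def ANStmt : Prop :=
  ∃ m₀ : ℕ, ∀ m ≥ m₀, ∃ L₀ : ℕ, ∀ L ≥ L₀, ∀ W : World m (pn m) (pw m) (pk m) L (pη m),
    W.tot ≤ 983 / 1000 * Lam m

/-- GOAL FIN -/
def FINStmt : Prop :=
  ∃ d₀ : ℕ, ∀ d ≥ d₀, ∃ (V : Type) (_ : Fintype V) (G : SimpleGraph V), G.CliqueFree 3 ∧
    (∀ S : Finset V, S.Nonempty → ∃ v ∈ S, (S.filter (fun u => G.Adj v u)).card ≤ d) ∧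
    ∀ ω : Finset V → ℝ, (∀ I, 0 ≤ ω I) →
      (∀ I, ω I ≠ 0 → G.IsIndepSet (I : Set V)) →
      (∀ v : V, 1 ≤ ∑ I ∈ Finset.univ.filter (fun I : Finset V => v ∈ I), ω I) →
      (1 + 1 / 60) * d / Real.log d ≤ ∑ I, ω I

end Pool.Agent.Helper3.FC
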