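import Pool.Agent.Helper52.FC.F12

/-!
# Project FC: the class Z'
-/

set_option autoImplicit false

namespace Pool.Agent.Helper3.FC.F9

open scoped Classical BigOperators
open Pool.Agent.Helper3.FC
open Pool.Agent.Helper52.FC.F12 (a_nonneg a_le_one R_nonneg R_sum f_nonneg f_le mix_le_one)

variable {m n w kz L : ℕ} {η : ℝ} (W : World m n w kz L η)

/-- `(1 + 15 u) / 16 ≤ 2 ^ (-2 + 9 u / 4)` -/
lemma tangent (u : ℝ) (hu : 0 ≤ u) :
    (1 + 15 * u) / 16 ≤ Real.exp (-(2 * Real.log 2) + 9 / 4 * Real.log 2 * u) := by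
  have hl2 : Real.log 2 < 0.6931471808 := Real.log_two_lt_d9
  have hl1 : 0.6931471803 < Real.log 2 := Real.log_two_gt_d9
  have e0 : (2.405 : ℝ) ≤ Real.exp 0.88 := by
    have h := Real.sum_le_exp_of_nonneg (show (0 : ℝ) ≤ 0.88 by norm_num) 7
    refine le_trans ?_ h
    norm_num [Finset.sum_range_succ, Nat.factorial]
  have e1 : Real.exp (-(2 * Real.log 2)) = 1 / 4 := by
    rw [Real.exp_neg, two_mul, Real.exp_add, Real.exp_log (by norm_num)]
    norm_num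
  rw [Real.exp_add, e1]
  have e2 : Real.exp (9 / 4 * Real.log 2 * u) =
      Real.exp 0.88 * Real.exp (9 / 4 * Real.log 2 * u - 0.88) := by
    rw [← Real.exp_add]; ring_nf
  have e3 := Real.add_one_le_exp (9 / 4 * Real.log 2 * u - 0.88)
  have e4 : Real.exp 0.88 * (9 / 4 * Real.log 2 * u - 0.88 + 1) ≤
      Real.exp (9 / 4 * Real.log 2 * u) := by
    rw [e2]
    exact mul_le_mul_of_nonneg_left e3 (Real.exp_pos _).le
  have e5 : (2.405 : ℝ) * (9 / 4 * Real.log 2 * u - 0.88 + 1) ≤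
      Real.exp 0.88 * (9 / 4 * Real.log 2 * u - 0.88 + 1) := by
    apply mul_le_mul_of_nonneg_right e0
    have : 0 ≤ 9 / 4 * Real.log 2 * u := by positivity
    linarith
  have e6 : 0.6931471803 * u ≤ Real.log 2 * u := mul_le_mul_of_nonneg_right hl1.le hu
  have e7 : (1 + 15 * u) / 4 ≤ Real.exp (9 / 4 * Real.log 2 * u) := by
    refine le_trans ?_ (e5.trans e4)
    nlinarith
  linarith

lemma z_bd (l : Fin n) (i : W.J l) : 0 ≤ W.z l i ∧ W.z l i ≤ 1 := by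
  unfold World.z
  constructor
  · apply div_nonneg
    · exact Finset.sum_nonneg fun j hj => W.yZ_nonneg j (Finset.mem_range.1 hj) l i
    · exact Nat.cast_nonneg L
  · apply div_le_one_of_le₀
    · calc ∑ j ∈ Finset.range L, W.yZ j l i ≤ ∑ j ∈ Finset.range L, (1 : ℝ) :=
            Finset.sum_le_sum fun j hj => W.yZ_le j (Finset.mem_range.1 hj) l i
        _ = L := by simp
    · exact Nat.cast_nonneg L

/-- one block -/
noncomputable def S (l : Fin n) : ℝ :=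
  ∑ i, (if W.F l i then W.ρ l i * (1 - W.z l i) ^ kz else 0)

lemma S_nonneg (l : Fin n) : 0 ≤ S W l := by
  unfold S
  apply Finset.sum_nonneg
  intro i _
  split_ifs
  · exact mul_nonneg (W.ρ_nonneg l i) (pow_nonneg (by linarith [(z_bd W l i).2]) _)
  · exact le_refl _

lemma S_le_one (l : Fin n) : S W l ≤ 1 := by
  unfold S
  refine le_trans (b := ∑ i, W.ρ l i) ?_ (W.ρ_sum l).le
  apply Finset.sum_le_sum
  intro i _
  have h0 := W.ρ_nonneg l i
  split_ifs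
  · have h1 : (1 - W.z l i) ^ kz ≤ 1 :=
      pow_le_one₀ (by linarith [(z_bd W l i).2]) (by linarith [(z_bd W l i).1])
    nlinarith
  · exact h0

lemma R_free : ∑ g : ∀ l, W.J l, W.R g * ((if ∀ l, W.F l (g l) then 1 else 0) *
    ∏ l, (1 - W.z l (g l)) ^ kz) = ∏ l, S W l := by
  have h := Finset.prod_univ_sum (fun _ => Finset.univ)
    (fun l (i : W.J l) => if W.F l i then W.ρ l i * (1 - W.z l i) ^ kz else 0)
  rw [Fintype.piFinset_univ] at h
  unfold S
  rw [h]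
  apply Finset.sum_congr rfl
  intro g _
  by_cases hg : ∀ l, W.F l (g l)
  · rw [if_pos hg, one_mul]
    unfold World.R
    rw [← Finset.prod_mul_distrib]
    apply Finset.prod_congr rfl
    intro l _
    rw [if_pos (hg l)]
  · rw [if_neg hg, zero_mul, mul_zero]
    push Not at hg
    obtain ⟨l, hl⟩ := hg
    symm
    apply Finset.prod_eq_zero (Finset.mem_univ l)
    rw [if_neg hl]

lemma YP_bd (j : ℕ) (hj : j < L) : 0 ≤ W.YP j ∧ W.YP j ≤ 1 := by
  constructor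
  · unfold World.YP
    exact Finset.sum_nonneg (fun g _ => mul_nonneg (R_nonneg W g) (W.yP_nonneg j hj g))
  · rw [← R_sum W]
    unfold World.YP
    apply Finset.sum_le_sum
    intro g _
    have h1 := R_nonneg W g
    have h2 := W.yP_le j hj g
    nlinarith

lemma YP_chain (j : ℕ) (hj : j < L) :
    W.YP j ≤ 2 * (∏ l, S W l) * (1 - mix η W.YP j) ^ m := by
  have h1 : ∀ g, W.R g * W.yP j g ≤
      W.R g * (2 * ((if ∀ l, W.F l (g l) then 1 else 0) *
        ∏ l, (1 - W.z l (g l)) ^ kz) * (1 - mix η W.YP j) ^ m) :=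
    fun g => mul_le_mul_of_nonneg_left (W.yP_chain j hj g) (R_nonneg W g)
  calc W.YP j ≤ ∑ g : ∀ l, W.J l, W.R g *
        (2 * ((if ∀ l, W.F l (g l) then 1 else 0) *
        ∏ l, (1 - W.z l (g l)) ^ kz) * (1 - mix η W.YP j) ^ m) :=
        Finset.sum_le_sum (fun g _ => h1 g)
    _ = 2 * (∑ g : ∀ l, W.J l, W.R g * ((if ∀ l, W.F l (g l) then 1 else 0) *
        ∏ l, (1 - W.z l (g l)) ^ kz)) *
        (1 - mix η W.YP j) ^ m := by
        rw [Finset.mul_sum, Finset.sum_mul]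
        apply Finset.sum_congr rfl
        intro g _
        ring
    _ = _ := by rw [R_free]

lemma numer (D Λ A n w r su : ℝ) (hΛ : 0 < Λ) (hn : 1 ≤ n) (hA0 : 0 ≤ A)
    (hA1 : A ≤ Λ * (1 + 1 / 10000)) (hD : 1 ≤ D)
    (h1 : D / 2 ≤ n * w * Λ + 1 / 10000) (hr : n * Real.log 2 = r * D) (hr0 : 0 ≤ r)
    (h2 : 4 * r ≤ 1) (h3 : 1 ≤ (4 + 1 / 10000) * r) (hsu : 0 ≤ su) :
    4 * (1 - (n * w * A + 2 * (n * Real.log 2) - 9 / 4 * Real.log 2 * su) / D) ≤
      2 - 2 * (A / Λ) + 9 / 4 * (su / n) + 9 / 10000 := by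
  have hD0 : 0 < D := by linarith
  have hn0 : 0 < n := by linarith
  obtain ⟨a, ha⟩ : ∃ a, a = A / Λ := ⟨_, rfl⟩
  obtain ⟨u, hu⟩ : ∃ u, u = su / n := ⟨_, rfl⟩
  have hAa : A = Λ * a := by rw [ha]; field_simp
  have hsu' : su = n * u := by rw [hu]; field_simp
  have ha0 : 0 ≤ a := by rw [ha]; positivity
  have hu0 : 0 ≤ u := by rw [hu]; positivity
  have ha1 : a ≤ 1 + 1 / 10000 := by
    rw [ha, div_le_iff₀ hΛ]; linarith
  rw [← ha, ← hu]
  have k1 : (n * w * A + 2 * (n * Real.log 2) - 9 / 4 * Real.log 2 * su) / D =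
      n * w * Λ * a / D + 2 * r - 9 / 4 * r * u := by
    have e1 : 9 / 4 * Real.log 2 * su = 9 / 4 * (n * Real.log 2) * u := by rw [hsu']; ring
    rw [e1, hr, hAa]
    field_simp
  rw [k1]
  have k2 : (1 / 2 - 1 / 10000) * a ≤ n * w * Λ * a / D := by
    rw [le_div_iff₀ hD0]
    have e2 : D * (1 / 2 - 1 / 10000) ≤ n * w * Λ := by nlinarith
    have e3 := mul_le_mul_of_nonneg_right e2 ha0
    linarith
  have k3 : r * u * 4 ≤ u := by nlinarith
  nlinarith

theorem core (Λ D : ℝ) (hn : 1 ≤ n) (hw : 1 ≤ w) (hΛ : 0 < Λ)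
    (hη : 0 ≤ η ∧ η ≤ 1)
    (hcb : ∀ α : ℝ, 0 ≤ α → ∀ y : ℕ → ℝ, (∀ j < L, 0 ≤ y j ∧ y j ≤ 1) →
      (∀ j < L, y j ≤ 2 * Real.exp (-(α * D)) * (1 - mix η y j) ^ (1 * m)) →
      (∑ j ∈ Finset.range L, y j) / L ≤ Λ * (4 / ((1 : ℕ) : ℝ) * max 0 (1 - α) + 1 / 10000))
    (hr1 : 4 ≤ D / (n * Real.log 2)) (hr2 : D / (n * Real.log 2) ≤ 4 + 1 / 10000)
    (hnw : D / 2 ≤ n * w * Λ + 1 / 10000)
    (h1 : ∀ l k, 0 ≤ W.a l k ∧ W.a l k ≤ Λ * (1 + 1 / 10000))
    (u : Fin n → ℝ) (hu0 : ∀ l, 0 ≤ u l)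
    (h9 : ∀ l, S W l ≤ W.f l * ((1 + 15 * u l) / 16)) :
    W.P ≤ Λ * (max 0 (2 - 2 * (W.A / Λ) + 9 / 4 * ((∑ l, u l) / n)) + 1 / 1000) := by
  have hS : ∀ l, S W l ≤ Real.exp (-(∑ k, W.a l k) - 2 * Real.log 2 +
      9 / 4 * Real.log 2 * u l) := by
    intro l
    refine (h9 l).trans ?_
    have e2 : -(∑ k, W.a l k) - 2 * Real.log 2 + 9 / 4 * Real.log 2 * u l =
        -(∑ k, W.a l k) + (-(2 * Real.log 2) + 9 / 4 * Real.log 2 * u l) := by ring
    rw [e2, Real.exp_add]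
    exact mul_le_mul (f_le W l) (tangent (u l) (hu0 l)) (by have := hu0 l; positivity)
      (Real.exp_pos _).le
  have hnR : (1 : ℝ) ≤ n := by exact_mod_cast hn
  have hwR : (1 : ℝ) ≤ w := by exact_mod_cast hw
  obtain ⟨β, hβ⟩ : ∃ β : ℝ, β = n * w * W.A + 2 * (n * Real.log 2) -
      9 / 4 * Real.log 2 * ∑ l, u l := ⟨_, rfl⟩
  have hA : (n : ℝ) * w * W.A = ∑ l, ∑ k, W.a l k := by
    unfold World.A
    have : (n : ℝ) * w ≠ 0 := by positivity
    field_simp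
  have hprod : ∏ l, S W l ≤ Real.exp (-β) := by
    have e1 : ∏ l, S W l ≤ ∏ l, Real.exp (-(∑ k, W.a l k) - 2 * Real.log 2 +
        9 / 4 * Real.log 2 * u l) :=
      Finset.prod_le_prod (fun l _ => S_nonneg W l) fun l _ => hS l
    rw [← Real.exp_sum] at e1
    refine e1.trans (le_of_eq ?_)
    have e3 : ∑ l, (-(∑ k, W.a l k) - 2 * Real.log 2 + 9 / 4 * Real.log 2 * u l) =
        -(∑ l, ∑ k, W.a l k) - n * (2 * Real.log 2) + 9 / 4 * Real.log 2 * ∑ l, u l := by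
      rw [Finset.mul_sum, Finset.sum_add_distrib, Finset.sum_sub_distrib,
        Finset.sum_neg_distrib, Finset.sum_const, Finset.card_univ, Fintype.card_fin, nsmul_eq_mul]
    rw [e3, hβ, hA]
    ring_nf
  have hprod1 : ∏ l, S W l ≤ 1 :=
    Finset.prod_le_one (fun l _ => S_nonneg W l) fun l _ => S_le_one W l
  have hl2 : 0 < Real.log 2 := Real.log_pos (by norm_num)
  have hnl : 0 < (n : ℝ) * Real.log 2 := by positivity
  have hD4 : 4 * (n * Real.log 2) ≤ D := by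
    rw [le_div_iff₀ hnl] at hr1; exact hr1
  have hD5 : D ≤ (4 + 1 / 10000) * (n * Real.log 2) := by
    rw [div_le_iff₀ hnl] at hr2; exact hr2
  have hD1 : 1 ≤ D := by
    have := Real.log_two_gt_d9
    nlinarith
  have hD0 : 0 < D := by linarith
  obtain ⟨α, hα⟩ : ∃ α : ℝ, α = max 0 (β / D) := ⟨_, rfl⟩
  have hα0 : 0 ≤ α := by rw [hα]; exact le_max_left _ _
  have hprodα : ∏ l, S W l ≤ Real.exp (-(α * D)) := by
    rcases le_total (β / D) 0 with hb | hb
    · rw [hα, max_eq_left hb, zero_mul, neg_zero, Real.exp_zero]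
      exact hprod1
    · rw [hα, max_eq_right hb, div_mul_cancel₀ _ hD0.ne']
      exact hprod
  have hcb' := hcb α hα0 W.YP (fun j hj => YP_bd W j hj)
    (fun j hj => by
      refine (YP_chain W j hj).trans ?_
      rw [one_mul]
      have hmix := mix_le_one hη.1 hη.2 W.YP j (fun i hi => YP_bd W i (by omega))
      apply mul_le_mul_of_nonneg_right _ (pow_nonneg (by linarith [hmix.2]) _)
      exact mul_le_mul_of_nonneg_left hprodα (by norm_num))
  have hP : W.P = (∑ j ∈ Finset.range L, W.YP j) / L := rfl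
  rw [hP]
  refine hcb'.trans ?_
  apply mul_le_mul_of_nonneg_left _ hΛ.le
  have hA0 : 0 ≤ W.A := by
    unfold World.A
    apply div_nonneg
    · exact Finset.sum_nonneg fun l _ => Finset.sum_nonneg fun k _ => a_nonneg W l k
    · positivity
  have hA1 : W.A ≤ Λ * (1 + 1 / 10000) := by
    have e1 : ∑ l, ∑ k, W.a l k ≤ ∑ _l : Fin n, ∑ _k : Fin w, Λ * (1 + 1 / 10000) :=
      Finset.sum_le_sum fun l _ => Finset.sum_le_sum fun k _ => (h1 l k).2
    rw [← hA] at e1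
    simp only [Finset.sum_const, Finset.card_univ, Fintype.card_fin, nsmul_eq_mul] at e1
    have e2 : 0 < (n : ℝ) * w := by positivity
    have e3 : (n : ℝ) * w * W.A ≤ n * w * (Λ * (1 + 1 / 10000)) := by linarith
    exact le_of_mul_le_mul_left e3 e2
  have hsu : 0 ≤ ∑ l, u l := Finset.sum_nonneg fun l _ => hu0 l
  obtain ⟨r, hr⟩ : ∃ r : ℝ, r = n * Real.log 2 / D := ⟨_, rfl⟩
  have hrD : (n : ℝ) * Real.log 2 = r * D := by rw [hr]; field_simp
  have hr0 : 0 ≤ r := by rw [hr]; positivity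
  have hr4 : 4 * r ≤ 1 := by
    rw [hr, mul_div_assoc', div_le_one hD0]; exact hD4
  have hr5 : 1 ≤ (4 + 1 / 10000) * r := by
    rw [hr, mul_div_assoc', one_le_div hD0]; exact hD5
  have hnum := numer D Λ W.A n w r (∑ l, u l) hΛ hnR hA0 hA1 hD1 hnw hrD hr0 hr4 hr5 hsu
  rw [← hβ] at hnum
  have hα1 : β / D ≤ α := by rw [hα]; exact le_max_right _ _
  rw [Nat.cast_one, div_one]
  rcases le_total (1 - α) 0 with hb | hb
  · rw [max_eq_left hb, mul_zero]
    have := le_max_left 0 (2 - 2 * (W.A / Λ) + 9 / 4 * ((∑ l, u l) / n))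
    linarith
  · rw [max_eq_right hb]
    have := le_max_right 0 (2 - 2 * (W.A / Λ) + 9 / 4 * ((∑ l, u l) / n))
    linarith

theorem t (h : CBStmt) (hp : PARStmt) (h1 : F1) (h9a : F9a) : F9 := by
  obtain ⟨mc, hc⟩ := h
  obtain ⟨mp, hp⟩ := hp (1 / 10000) (by norm_num)
  obtain ⟨m1, h1⟩ := h1
  obtain ⟨m9, h9⟩ := h9a
  refine ⟨max (max mc mp) (max m1 m9), fun m hm => ?_⟩
  have hm1 : mc ≤ m := ((le_max_left _ _).trans (le_max_left _ _)).trans hm
  have hm2 : mp ≤ m := ((le_max_right _ _).trans (le_max_left _ _)).trans hm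
  have hm3 : m1 ≤ m := ((le_max_left _ _).trans (le_max_right _ _)).trans hm
  have hm4 : m9 ≤ m := ((le_max_right _ _).trans (le_max_right _ _)).trans hm
  obtain ⟨Lc, hc⟩ := hc m hm1
  obtain ⟨L1, h1⟩ := h1 m hm3
  obtain ⟨L9, h9⟩ := h9 m hm4
  obtain ⟨hn, hw, hk, hΛ, hΛε, -, -, -, -, -, -, hr1, hr2, hnw, -⟩ := hp m hm2
  refine ⟨max Lc (max L1 L9), fun L hL W => ?_⟩
  have hL1 : Lc ≤ L := (le_max_left _ _).trans hL
  have hL2 : L1 ≤ L := ((le_max_left _ _).trans (le_max_right _ _)).trans hL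
  have hL3 : L9 ≤ L := ((le_max_right _ _).trans (le_max_right _ _)).trans hL
  have hη : 0 ≤ pη m ∧ pη m ≤ 1 := by
    unfold pη
    constructor
    · positivity
    · linarith
  exact core W (Lam m) (Real.log (4 * m)) hn hw hΛ hη
    (hc L hL1 1 (le_refl _) (by norm_num)) hr1 hr2 hnw (h1 L hL2 W)
    (fun l => 1 - W.zF l / (W.f l * (4001 / 1000 * Lam m)))
    (fun l => (h9 L hL3 W l).1) (fun l => (h9 L hL3 W l).2.2)

end Pool.Agent.Helper3.FC.F9
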