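import Pool.Agent.Helper3.FC.Tc

/-!
# Project FC: the graph
-/

set_option autoImplicit false

namespace Pool.Agent.Helper3.FC

open scoped Classical BigOperators
open Finset

section xi
variable {n : ℕ} {J : Fin n → Type} [∀ l, Fintype (J l)]

/-- the vertices over the templates with the group `i` in the block `l` -/
noncomputable def xi (ρ : ∀ l, J l → ℝ) (ν : (∀ l, J l) → ℕ →₀ ℝ) (l : Fin n) (i : J l) :
    ℕ →₀ ℝ :=
  ∑ g : ∀ l, J l, (if g l = i then ∏ l' ∈ Finset.univ.erase l, ρ l' (g l') else 0) • ν g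

theorem erase_sum (ρ : ∀ l, J l → ℝ) (hρ : ∀ l, ∑ i, ρ l i = 1) (l : Fin n) (i : J l) :
    ∑ g : ∀ l, J l, (if g l = i then ∏ l' ∈ Finset.univ.erase l, ρ l' (g l') else 0) = 1 := by
  have h := prod_sum_one (fun l' => Function.update ρ l (fun a => if a = i then 1 else 0) l')
    (fun l' => by
      by_cases hl : l' = l
      · subst hl
        simp
      · rw [Function.update_of_ne hl, hρ])
  rw [← h]
  refine Finset.sum_congr rfl fun g _ => ?_
  rw [← Finset.mul_prod_erase _ (fun l' => Function.update ρ l (fun a => if a = i then 1 else 0)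
    l' (g l')) (Finset.mem_univ l), Function.update_self]
  have : ∏ l' ∈ Finset.univ.erase l, Function.update ρ l (fun a => if a = i then 1 else 0)
      l' (g l') = ∏ l' ∈ Finset.univ.erase l, ρ l' (g l') := Finset.prod_congr rfl fun l' hl => by
    rw [Function.update_of_ne (Finset.ne_of_mem_erase hl)]
  rw [this]
  split_ifs <;> simp

omit [∀ l, Fintype (J l)] in
theorem erase_nonneg (ρ : ∀ l, J l → ℝ) (h0 : ∀ l i, 0 ≤ ρ l i) (l : Fin n) (i : J l)
    (g : ∀ l, J l) :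
    0 ≤ (if g l = i then ∏ l' ∈ Finset.univ.erase l, ρ l' (g l') else 0) := by
  split_ifs
  · exact Finset.prod_nonneg fun l' _ => h0 _ _
  · exact le_rfl

theorem xi_prob (ρ : ∀ l, J l → ℝ) (h0 : ∀ l i, 0 ≤ ρ l i) (hρ : ∀ l, ∑ i, ρ l i = 1)
    (ν : (∀ l, J l) → ℕ →₀ ℝ) (hν : ∀ g, IsProb (ν g)) (l : Fin n) (i : J l) :
    IsProb (xi ρ ν l i) :=
  isProb_comb _ _ _ (fun g _ => erase_nonneg ρ h0 l i g) (erase_sum ρ hρ l i) fun g _ => hν g

theorem xi_le (ρ : ∀ l, J l → ℝ) (h0 : ∀ l i, 0 ≤ ρ l i) (hρ : ∀ l, ∑ i, ρ l i = 1)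
    (ν : (∀ l, J l) → ℕ →₀ ℝ) (b : ℝ) (u : ℕ) (hν : ∀ g, ν g u ≤ b) (l : Fin n) (i : J l) :
    xi ρ ν l i u ≤ b :=
  comb_le _ _ _ _ _ (fun g _ => erase_nonneg ρ h0 l i g) (erase_sum ρ hρ l i) fun g _ => hν g

theorem xi_ne (ρ : ∀ l, J l → ℝ) (ν : (∀ l, J l) → ℕ →₀ ℝ) (u : ℕ) (l : Fin n) (i : J l)
    (h : xi ρ ν l i u ≠ 0) : ∃ g, ν g u ≠ 0 := by
  obtain ⟨g, -, -, h⟩ := comb_ne _ _ _ _ h
  exact ⟨g, h⟩

theorem xi_mass (ρ : ∀ l, J l → ℝ) (L : ℕ) (ν : ℕ → (∀ l, J l) → ℕ →₀ ℝ) (I : Set ℕ) (l : Fin n)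
    (i : J l) : mass I (xi ρ (av L ν) l i) = (∑ j ∈ Finset.range L, ∑ g : ∀ l, J l,
      (if g l = i then ∏ l' ∈ Finset.univ.erase l, ρ l' (g l') else 0) * mass I (ν j g)) / L := by
  unfold xi
  rw [mass_comb, Finset.sum_comm, Finset.sum_div]
  refine Finset.sum_congr rfl fun g _ => ?_
  rw [av_mass, ← Finset.mul_sum, mul_div_assoc]

end xi

/-- averages over templates -/
theorem avT_mass {T : Type} [Fintype T] (c : T → ℝ) (L : ℕ) (ν : ℕ → T → ℕ →₀ ℝ) (I : Set ℕ) :
    mass I (∑ g, c g • av L ν g) = (∑ j ∈ Finset.range L, ∑ g, c g * mass I (ν j g)) / L := by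
  rw [mass_comb, Finset.sum_comm, Finset.sum_div]
  refine Finset.sum_congr rfl fun g _ => ?_
  rw [av_mass, ← Finset.mul_sum, mul_div_assoc]

theorem gb (hCL : CLStmt) : GBStmt := by
  intro m n w kz L η hm hn hw hL hnw hnk h0 h1
  set d := 4 * m with hd
  set Q := 32 * d ^ 4 with hQdef
  have hd1 : 1 ≤ d := by omega
  have hQ : 32 * d ^ 4 ≤ Q := le_rfl
  have hQ1 : 1 ≤ Q := le_trans (Nat.one_le_pow 4 d hd1) (by omega)
  have hG0 : Good d 0 (fun _ => ∅) := fun v hv => absurd hv (Nat.not_lt_zero v)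
  -- level 0
  obtain ⟨N0, nb0, ν0, -, -, G0, p0, s0, q0, -, dj0, st0, c0⟩ :=
    lc hCL (Nlo := 0) hG0 hd1 (Fin n × Fin w) 0 (4 * m) (by omega) (fun _ => 0)
      (fun h => absurd h (by norm_num)) (fun h => absurd h (by norm_num)) le_rfl hQ hQ1
      (fun h => absurd h (by norm_num)) h0 h1 L
  let μ : Fin n → Fin w → ℕ →₀ ℝ := fun l k => av L ν0 (l, k)
  have hμ : ∀ l k, IsProb (μ l k) := fun l k => av_prob hL _ fun j hj => p0 j hj _
  have hμs : ∀ l k u, μ l k u ≠ 0 → u < N0 := fun l k u hu => by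
    obtain ⟨j, hj, h⟩ := av_ne _ _ hu
    exact (s0 j hj _ _ h).2
  have hμp : ∀ l k u, μ l k u ≤ 2 / Q := fun l k u => av_le hL _ _ _ fun j hj => q0 j hj _ _
  have hadj : ∀ l k l' k' u u', (l, k) ≠ (l', k') → μ l k u ≠ 0 → μ l' k' u' ≠ 0 →
      u ∉ nb0 u' := by
    intro l k l' k' u u' hne hu hu' hm'
    obtain ⟨j, hj, h⟩ := av_ne _ _ hu
    obtain ⟨j', hj', h'⟩ := av_ne _ _ hu'
    rcases st0 j' hj' _ _ h' u hm' with ⟨hf, -⟩ | ⟨j'', hj'', h''⟩
    · exact absurd hf (by norm_num)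
    · exact hne (dj0 j hj j'' hj'' _ _ u h h'')
  -- class X
  obtain ⟨N1, nb1, νX, e1, f1, G1, p1, s1, q1, c1⟩ :=
    tc hCL G0 hd1 0 (2 * m) (by omega) μ hμ hμs le_rfl hQ hQ1 hμp hadj (fun _ _ => 0)
      (fun h => absurd h (by norm_num)) (fun h => absurd h (by norm_num))
      (fun h => absurd h (by norm_num)) h0 h1 L
  have avX : ∀ g, IsProb (av L νX g) := fun g => av_prob hL _ fun j hj => p1 j hj _
  let ξ : (l : Fin n) → JJ μ l → ℕ →₀ ℝ := fun l i => xi (rr μ) (av L νX) l i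
  have hξ : ∀ l i, IsProb (ξ l i) := fun l i => xi_prob _ (rr_nonneg hμ) (rr_sum hμ) _ avX _ _
  -- class V
  obtain ⟨N2, nb2, νV, e2, f2, G2, p2, s2, q2, lo2, -, -, c2⟩ :=
    lc hCL (Nlo := N0) G1 hd1 (Σ l, JJ μ l) m (3 * m) (by omega) (fun τ => ξ τ.1 τ.2)
      (fun _ τ => hξ _ _)
      (fun _ τ u hu => by
        obtain ⟨g, hg⟩ := xi_ne _ _ _ _ _ hu
        obtain ⟨j, hj, h⟩ := av_ne _ _ hg
        exact s1 j hj _ _ h) e1 hQ hQ1
      (fun _ τ u => xi_le _ (rr_nonneg hμ) (rr_sum hμ) _ _ _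
        (fun g => av_le hL _ _ _ fun j hj => q1 j hj _ _) _ _) h0 h1 L
  have avV : ∀ τ, IsProb (av L νV τ) := fun g => av_prob hL _ fun j hj => p2 j hj _
  -- class Z
  obtain ⟨N3, nb3, νZ, e3, f3, G3, p3, s3, q3, lo3, -, -, c3⟩ :=
    lc hCL (Nlo := N0) G2 hd1 (Σ l, JJ μ l) (3 * m) m (by omega) (av L νV)
      (fun _ τ => avV τ)
      (fun _ τ u hu => by
        obtain ⟨j, hj, h⟩ := av_ne _ _ hu
        exact ⟨le_trans e1 (s2 j hj _ _ h).1, (s2 j hj _ _ h).2⟩) (le_trans e1 e2) hQ hQ1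
      (fun _ τ u => av_le hL _ _ _ fun j hj => q2 j hj _ _) h0 h1 L
  have avZ : ∀ τ, IsProb (av L νZ τ) := fun g => av_prob hL _ fun j hj => p3 j hj _
  -- class Z'
  have hadj3 : ∀ l k l' k' u u', (l, k) ≠ (l', k') → μ l k u ≠ 0 → μ l' k' u' ≠ 0 →
      u ∉ nb3 u' := by
    intro l k l' k' u u' hne hu hu'
    have h : u' < N0 := hμs _ _ _ hu'
    rw [f3 u' (by omega), f2 u' (by omega), f1 u' h]
    exact hadj l k l' k' u u' hne hu hu'
  obtain ⟨N4, nb4, νP, e4, f4, G4, p4, s4, q4, c4⟩ :=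
    tc hCL G3 hd1 kz m (by omega) μ hμ hμs (le_trans e1 (le_trans e2 e3)) hQ hQ1 hμp hadj3
      (fun l i => av L νZ ⟨l, i⟩) (fun _ l i => avZ _)
      (fun _ l i u hu => by
        obtain ⟨j, hj, h⟩ := av_ne _ _ hu
        exact ⟨le_trans e1 (le_trans e2 (s3 j hj _ _ h).1), (s3 j hj _ _ h).2,
          fun x hx => lo3 j hj _ _ h x hx⟩)
      (fun _ l i u => av_le hL _ _ _ fun j hj => q3 j hj _ _) h0 h1 L
  have avP : ∀ g, IsProb (av L νP g) := fun g => av_prob hL _ fun j hj => p4 j hj _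
  -- the total measure
  have hn' : (n : ℝ) ≠ 0 := by positivity
  have hw' : (w : ℝ) ≠ 0 := by positivity
  have hR0 : ∀ g : (∀ l, JJ μ l), 0 ≤ ∏ l, rr μ l (g l) := fun g =>
    Finset.prod_nonneg fun l _ => rr_nonneg hμ l _
  have hR1 : ∑ g : (∀ l, JJ μ l), ∏ l, rr μ l (g l) = 1 :=
    prod_sum_one (κ := fun l => JJ μ l) (fun l i => rr μ l i) fun l => rr_sum hμ l
  have hS1 : ∑ τ : (Σ l, JJ μ l), rr μ τ.1 τ.2 / n = 1 := by
    rw [Fintype.sum_sigma]
    simp only [← Finset.sum_div]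
    rw [Finset.sum_congr rfl fun l _ => rr_sum hμ l]
    simp [hn']
  let ΩA : ℕ →₀ ℝ := ∑ τ : Fin n × Fin w, (1 / (n * w) : ℝ) • av L ν0 τ
  let ΩX : ℕ →₀ ℝ := ∑ g : (∀ l, JJ μ l), (∏ l, rr μ l (g l)) • av L νX g
  let ΩV : ℕ →₀ ℝ := ∑ τ : (Σ l, JJ μ l), (rr μ τ.1 τ.2 / n) • av L νV τ
  let ΩZ : ℕ →₀ ℝ := ∑ τ : (Σ l, JJ μ l), (rr μ τ.1 τ.2 / n) • av L νZ τ
  let ΩP : ℕ →₀ ℝ := ∑ g : (∀ l, JJ μ l), (∏ l, rr μ l (g l)) • av L νP g
  have hA : IsProb ΩA := isProb_comb _ _ _ (fun _ _ => by positivity)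
    (by
      rw [Finset.sum_const, Finset.card_univ, Fintype.card_prod, Fintype.card_fin,
        Fintype.card_fin, nsmul_eq_mul]
      push_cast
      field_simp) fun τ _ => hμ τ.1 τ.2
  have hX : IsProb ΩX := isProb_comb _ _ _ (fun g _ => hR0 g) hR1 fun g _ => avX g
  have hV : IsProb ΩV := isProb_comb _ _ _
    (fun τ _ => div_nonneg (rr_nonneg hμ _ _) (by positivity)) hS1 fun τ _ => avV τ
  have hZ : IsProb ΩZ := isProb_comb _ _ _
    (fun τ _ => div_nonneg (rr_nonneg hμ _ _) (by positivity)) hS1 fun τ _ => avZ τ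
  have hP : IsProb ΩP := isProb_comb _ _ _ (fun g _ => hR0 g) hR1 fun g _ => avP g
  let Ω : ℕ →₀ ℝ := (510 / 852 : ℝ) • ΩA + (138 / 852 : ℝ) • ΩX + (138 / 852 : ℝ) • ΩV +
    (46 / 852 : ℝ) • ΩZ + (20 / 852 : ℝ) • ΩP
  have hex : ∀ φ, ex Ω φ = 510 / 852 * ex ΩA φ + 138 / 852 * ex ΩX φ + 138 / 852 * ex ΩV φ +
      46 / 852 * ex ΩZ φ + 20 / 852 * ex ΩP φ := fun φ => by
    simp only [Ω, ex_add, ex_smul]
  have happ : ∀ u, Ω u = 510 / 852 * ΩA u + 138 / 852 * ΩX u + 138 / 852 * ΩV u +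
      46 / 852 * ΩZ u + 20 / 852 * ΩP u := fun u => by
    simp only [Ω, Finsupp.add_apply, Finsupp.smul_apply, smul_eq_mul]
  refine ⟨N4, nb4, Ω, G4, ⟨fun u => ?_, ?_⟩, ?_, ?_⟩
  · rw [happ]
    have := hA.1 u; have := hX.1 u; have := hV.1 u; have := hZ.1 u; have := hP.1 u
    positivity
  · rw [hex, hA.2, hX.2, hV.2, hZ.2, hP.2]
    norm_num
  · intro v hv
    by_contra hlt
    apply hv
    have hge : N4 ≤ v := not_lt.1 hlt
    have zA : ΩA v = 0 := by
      by_contra h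
      obtain ⟨τ, -, -, h⟩ := comb_ne _ _ _ _ h
      have := hμs τ.1 τ.2 v h
      omega
    have zX : ΩX v = 0 := by
      by_contra h
      obtain ⟨τ, -, -, h⟩ := comb_ne _ _ _ _ h
      obtain ⟨j, hj, h⟩ := av_ne _ _ h
      have := (s1 j hj _ _ h).2
      omega
    have zV : ΩV v = 0 := by
      by_contra h
      obtain ⟨τ, -, -, h⟩ := comb_ne _ _ _ _ h
      obtain ⟨j, hj, h⟩ := av_ne _ _ h
      have := (s2 j hj _ _ h).2
      omega
    have zZ : ΩZ v = 0 := by
      by_contra h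
      obtain ⟨τ, -, -, h⟩ := comb_ne _ _ _ _ h
      obtain ⟨j, hj, h⟩ := av_ne _ _ h
      have := (s3 j hj _ _ h).2
      omega
    have zP : ΩP v = 0 := by
      by_contra h
      obtain ⟨τ, -, -, h⟩ := comb_ne _ _ _ _ h
      obtain ⟨j, hj, h⟩ := av_ne _ _ h
      have := (s4 j hj _ _ h).2
      omega
    rw [happ, zA, zX, zV, zZ, zP]
    norm_num
  · intro I hI4
    have hI3 : Indep N3 nb3 I := Indep.anti e4 f4 hI4
    have hI2 : Indep N2 nb2 I := Indep.anti e3 f3 hI3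
    have hI1 : Indep N1 nb1 I := Indep.anti e2 f2 hI2
    have hI0 : Indep N0 nb0 I := Indep.anti e1 f1 hI1
    let W : World m n w kz L η :=
      { J := JJ μ
        fin := fun l => inferInstance
        ρ := rr μ
        ρ_nonneg := rr_nonneg hμ
        ρ_sum := rr_sum hμ
        F := fun l i => ∀ k, (i k : ℕ) ∉ I
        y0 := fun j l k => mass I (ν0 j (l, k))
        y0_nonneg := fun j hj l k => mass_nonneg (p0 j hj _).1
        y0_le := fun j hj l k => mass_le_one (p0 j hj _)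
        y0_chain := fun j hj l k => by
          have := c0 I hI0 j hj (l, k)
          simpa using this
        F_mass := fun l => by
          have h := rr_free hμ l I
          have h2 : ∏ k, (1 - mass I (μ l k)) =
              ∏ k, (1 - (∑ j ∈ Finset.range L, mass I (ν0 j (l, k))) / L) :=
            Finset.prod_congr rfl fun k _ => by rw [← av_mass]
          rw [← h2, ← h]
          refine Finset.sum_congr rfl fun i _ => ?_
          by_cases hi : ∀ k, (i k : ℕ) ∉ I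
          · rw [if_pos hi, if_pos hi]
          · rw [if_neg hi, if_neg hi]
        yX := fun j g => mass I (νX j g)
        yX_nonneg := fun j hj g => mass_nonneg (p1 j hj _).1
        yX_le := fun j hj g => mass_le_one (p1 j hj _)
        yX_chain := fun j hj g => by
          have h := c1 I hI1 j hj g
          simp only [pow_zero, Finset.prod_const_one, mul_one] at h
          convert h using 3
          by_cases hP : ∀ (l : Fin n) (k : Fin w), (g l k : ℕ) ∉ I
          · rw [if_pos hP, if_pos hP]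
          · rw [if_neg hP, if_neg hP]
        yV := fun j l i => mass I (νV j ⟨l, i⟩)
        yV_nonneg := fun j hj l i => mass_nonneg (p2 j hj _).1
        yV_le := fun j hj l i => mass_le_one (p2 j hj _)
        yV_chain := fun j hj l i => by
          have h := c2 I hI2 j hj ⟨l, i⟩
          have e : mass I (ξ l i) = _ := xi_mass (rr μ) L νX I l i
          rw [e] at h
          exact h
        yZ := fun j l i => mass I (νZ j ⟨l, i⟩)
        yZ_nonneg := fun j hj l i => mass_nonneg (p3 j hj _).1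
        yZ_le := fun j hj l i => mass_le_one (p3 j hj _)
        yZ_chain := fun j hj l i => by
          have h := c3 I hI3 j hj ⟨l, i⟩
          rw [av_mass] at h
          exact h
        yP := fun j g => mass I (νP j g)
        yP_nonneg := fun j hj g => mass_nonneg (p4 j hj _).1
        yP_le := fun j hj g => mass_le_one (p4 j hj _)
        yP_chain := fun j hj g => by
          have h := c4 I hI4 j hj g
          simp only [av_mass] at h
          convert h using 4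
          by_cases hP : ∀ (l : Fin n) (k : Fin w), (g l k : ℕ) ∉ I
          · rw [if_pos hP, if_pos hP]
          · rw [if_neg hP, if_neg hP] }
    refine ⟨W, ?_⟩
    have mA : mass I ΩA = W.A := by
      simp only [ΩA, mass_comb, World.A, World.a, W, av_mass]
      rw [Fintype.sum_prod_type, Finset.sum_div]
      refine Finset.sum_congr rfl fun l _ => ?_
      rw [Finset.sum_div]
      refine Finset.sum_congr rfl fun k _ => ?_
      ring
    have mX : mass I ΩX = W.X := avT_mass _ L νX I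
    have mP : mass I ΩP = W.P := avT_mass _ L νP I
    have mV : mass I ΩV = W.V := by
      simp only [ΩV, mass_comb, World.V, World.E, World.v, W, av_mass]
      rw [Fintype.sum_sigma, Finset.sum_div]
      refine Finset.sum_congr rfl fun l _ => ?_
      rw [Finset.sum_div]
      refine Finset.sum_congr rfl fun k _ => ?_
      ring
    have mZ : mass I ΩZ = W.Z := by
      simp only [ΩZ, mass_comb, World.Z, World.E, World.z, W, av_mass]
      rw [Fintype.sum_sigma, Finset.sum_div]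
      refine Finset.sum_congr rfl fun l _ => ?_
      rw [Finset.sum_div]
      refine Finset.sum_congr rfl fun k _ => ?_
      ring
    have hmass : mass I Ω = 510 / 852 * mass I ΩA + 138 / 852 * mass I ΩX +
        138 / 852 * mass I ΩV + 46 / 852 * mass I ΩZ + 20 / 852 * mass I ΩP := hex _
    rw [hmass, mA, mX, mV, mZ, mP, World.tot]
    ring

end Pool.Agent.Helper3.FC
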