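import Pool.Agent.Helper3.FC.Defs

/-!
# Project FC: the goals of the analysis

All densities are compared with `Λ = Lam m = log (4m) / (4m)`.
-/

set_option autoImplicit false

namespace Pool.Agent.Helper3.FC

open scoped Classical BigOperators

/-- for all large `m` and then all large `L` -/
def Ev (P : ∀ (m L : ℕ), World m (pn m) (pw m) (pk m) L (pη m) → Prop) : Prop :=
  ∃ m₀ : ℕ, ∀ m ≥ m₀, ∃ L₀ : ℕ, ∀ L ≥ L₀, ∀ W, P m L W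

namespace World

variable {m n w kz L : ℕ} {η : ℝ} (W : World m n w kz L η)

/-- mass of the free groups of the block `l` -/
noncomputable def f (l : Fin n) : ℝ := ∑ i, if W.F l i then W.ρ l i else 0

noncomputable def fbar : ℝ := (∑ l, W.f l) / n

/-- `E_i [1_F z]` in the block `l` -/
noncomputable def zF (l : Fin n) : ℝ := ∑ i, W.ρ l i * (if W.F l i then W.z l i else 0)

end World

/-- GOAL CB: chain bound for one sequence. -/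
def CBStmt : Prop :=
  ∃ m₀ : ℕ, ∀ m ≥ m₀, ∃ L₀ : ℕ, ∀ L ≥ L₀, ∀ σ : ℕ, 1 ≤ σ → σ ≤ 4 → ∀ α : ℝ, 0 ≤ α →
    ∀ y : ℕ → ℝ, (∀ j < L, 0 ≤ y j ∧ y j ≤ 1) →
    (∀ j < L, y j ≤ 2 * Real.exp (-(α * Real.log (4 * m))) * (1 - mix (pη m) y j) ^ (σ * m)) →
    (∑ j ∈ Finset.range L, y j) / L ≤ Lam m * (4 / σ * max 0 (1 - α) + 1 / 10000)

/-- GOAL PAR: the parameters. -/
def PARStmt : Prop :=
  ∀ ε : ℝ, 0 < ε → ∃ m₀ : ℕ, ∀ m ≥ m₀,
    1 ≤ pn m ∧ 1 ≤ pw m ∧ 1 ≤ pk m ∧ 0 < Lam m ∧ Lam m < ε ∧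
    pn m * pw m ≤ 2 * m ∧ pn m * pk m ≤ m ∧
    2 * Real.log 2 ≤ pw m * Lam m + ε ∧ pw m * Lam m ≤ 2 * Real.log 2 + ε ∧
    Real.log 2 ≤ pk m * Lam m + ε ∧ pk m * Lam m ≤ Real.log 2 + ε ∧
    4 ≤ Real.log (4 * m) / (pn m * Real.log 2) ∧
    Real.log (4 * m) / (pn m * Real.log 2) ≤ 4 + ε ∧
    Real.log (4 * m) / 2 ≤ pn m * pw m * Lam m + ε ∧ 
    1 ≤ ε * pn m

/-- F1: the copies. -/
def F1 : Prop := Ev fun m _ W => ∀ l k, 0 ≤ W.a l k ∧ W.a l k ≤ Lam m * (1 + 1 / 10000)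

/-- F2: the class X. -/
def F2 : Prop := Ev fun m _ W => W.X ≤ Lam m * (2 + 1 / 1000) - W.A

/-- F3: the class V. -/
def F3 : Prop := Ev fun m _ W => ∀ l i,
  W.v l i ≤ Lam m * (4 / 3 * max 0 (1 - W.x l i / (4 * Lam m)) + 1 / 10000)

/-- F4: the class Z. -/
def F4 : Prop := Ev fun m _ W => ∀ l i,
  W.z l i ≤ Lam m * (4 * max 0 (1 - 3 * W.v l i / (4 * Lam m)) + 1 / 10000)

/-- F5: vertices of X over hit groups are not in the independent set (exact). -/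
def F5 : Prop := ∀ (m n w kz L : ℕ) (η : ℝ) (W : World m n w kz L η), 0 ≤ η → η ≤ 1 →
  ∀ l i, 0 ≤ W.x l i ∧ (¬ W.F l i → W.x l i = 0)

/-- F6: `E x = X` (exact). -/
def F6 : Prop := ∀ (m n w kz L : ℕ) (η : ℝ) (W : World m n w kz L η), 1 ≤ n → W.E W.x = W.X

/-- F7: the free groups. -/
def F7 : Prop := Ev fun m _ W => (∀ l, 1 / 4 * (1 - 1 / 1000) ≤ W.f l ∧ W.f l ≤ 1) ∧
  W.fbar ≤ 1 + 1 / 1000 - 3 / 4 * (W.A / Lam m)

/-- F8: stability. -/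
def F8 : Prop := Ev fun m _ W => ∀ B : ∀ l, W.J l → Prop, (∀ l i, B l i → W.F l i) →
  W.E (fun l i => if B l i then W.x l i else 0) ≤
    W.X * ((∑ l, (∑ i, if B l i then W.ρ l i else 0) / W.f l) / pn m + 87 / 1000) +
    4 * (2 * Lam m - W.A) * (1 - (W.A + W.X) / (2 * Lam m)) + Lam m / 1000

/-- F9: the class Z'. -/
def F9 : Prop := Ev fun m _ W =>
  W.P ≤ Lam m * (max 0 (2 - 2 * (W.A / Lam m) +
    9 / 4 * ((∑ l, (1 - W.zF l / (W.f l * (4001 / 1000 * Lam m)))) / pn m)) + 1 / 1000)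

/-- GOAL HB: the number of blocks of a template with the group in `B` (exact inequality, one level). -/
def HBStmt : Prop := ∀ (m n w kz L : ℕ) (η : ℝ) (W : World m n w kz L η), 1 ≤ n → 0 ≤ η → η ≤ 1 →
  ∀ B : ∀ l, W.J l → Prop, (∀ l i, B l i → W.F l i) → ∀ j < L, ∀ t : ℝ,
  Real.log 2 * ∑ g : ∀ l, W.J l, W.R g * W.yX j g * (∑ l, if B l (g l) then 1 else 0) ≤
    Real.exp (-t) * (2 * (1 - mix η W.YX j) ^ (2 * m) *
      ∏ l, (W.f l + ∑ i, if B l i then W.ρ l i else 0)) + (t - 1) * W.YX j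

/-- GOAL SEQ: summation by parts. -/
def SEQStmt : Prop := ∀ (η c : ℝ) (L : ℕ) (y : ℕ → ℝ), 0 < η → η ≤ 1 → 0 ≤ c →
  (∀ j < L, 0 ≤ y j ∧ y j ≤ 1) →
  ∑ j ∈ Finset.range L, y j * (c - mix η y j) ≤
    c * (c * L - ∑ j ∈ Finset.range L, y j) + 2 * c / η + η * ∑ j ∈ Finset.range L, y j

/-- F9a: one block of Z'. -/
def F9a : Prop := Ev fun m _ W => ∀ l,
  0 ≤ 1 - W.zF l / (W.f l * (4001 / 1000 * Lam m)) ∧
  0 ≤ ∑ i, (if W.F l i then W.ρ l i * (1 - W.z l i) ^ pk m else 0) ∧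
  ∑ i, (if W.F l i then W.ρ l i * (1 - W.z l i) ^ pk m else 0) ≤
    W.f l * ((1 + 15 * (1 - W.zF l / (W.f l * (4001 / 1000 * Lam m)))) / 16)

end Pool.Agent.Helper3.FC
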