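import Pool.Agent.Helper3.FC.GB
import Pool.Agent.Helper45.FC.OL
import Pool.Agent.Helper78.FC.CL
import Pool.Agent.Helper5.FC.CB
import Pool.Agent.Helper72.FC.PAR
import Pool.Agent.Helper52.FC.F12
import Pool.Agent.Helper35.FC.F34
import Pool.Agent.Helper70.FC.F56
import Pool.Agent.Helper64.FC.F7
import Pool.Agent.Helper67.FC.HB
import Pool.Agent.Helper66.FC.SEQ
import Pool.Agent.Helper83.FC.F8
import Pool.Agent.Helper94.FC.F9a
import Pool.Agent.Helper3.FC.F9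
import Pool.Agent.Helper8.FC.FIN1
import Pool.Agent.Helper93.FC.FIN2

/-!
# Project FC: assembly
-/

set_option autoImplicit false

namespace Pool.Agent.Helper3.FC

theorem fin : FINStmt := by
  have ol := Pool.Agent.Helper45.FC.OL.t
  have cl : CLStmt := Pool.Agent.Helper78.FC.CL.t ol
  have hg : GBStmt := gb cl
  have cb : CBStmt := Pool.Agent.Helper5.FC.CB.t
  have hp : PARStmt := Pool.Agent.Helper72.FC.PAR.t
  obtain ⟨h1, h2⟩ := Pool.Agent.Helper52.FC.F12.t cb hp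
  obtain ⟨h3, h4⟩ := Pool.Agent.Helper35.FC.F34.t cb
  obtain ⟨h5, h6⟩ := Pool.Agent.Helper70.FC.F56.t
  have h7 : F7 := Pool.Agent.Helper64.FC.F7.t h1 hp
  have hb : HBStmt := Pool.Agent.Helper67.FC.HB.t
  have hs : SEQStmt := Pool.Agent.Helper66.FC.SEQ.t
  have h8 : F8 := Pool.Agent.Helper83.FC.F8.t hp h1 h2 h6 h7 hb hs
  have h9a : F9a := Pool.Agent.Helper94.FC.F9a.t hp h1 h4 h7
  have h9 : F9 := Pool.Agent.Helper3.FC.F9.t cb hp h1 h9a
  have ha : ANStmt := Pool.Agent.Helper8.FC.FIN1.t h1 h2 h3 h4 h5 h6 h7 h8 h9 hp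
  exact Pool.Agent.Helper93.FC.FIN2.t hg ha

end Pool.Agent.Helper3.FC
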