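import Pool.Agent.Helper3.FC.Basic

/-!
# Project FC: the stages of the construction from the chain lemma
-/

set_option autoImplicit false

namespace Pool.Agent.Helper3.FC

open scoped Classical BigOperators
open Finset

/-- marginal of a product weight -/
theorem marg {ι : Type*} [Fintype ι] [DecidableEq ι] {κ : ι → Type*} [∀ i, Fintype (κ i)]
    (p : ∀ i, κ i → ℝ) (hp : ∀ i, ∑ a, p i a = 1) (i0 : ι) (φ : κ i0 → ℝ) :
    ∑ x : ∀ i, κ i, (∏ i, p i (x i)) * φ (x i0) = ∑ a, p i0 a * φ a := by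
  have h := Fintype.prod_sum (fun i => Function.update p i0 (fun a => p i0 a * φ a) i)
  have h1 : ∏ i, ∑ a, Function.update p i0 (fun a => p i0 a * φ a) i a =
      ∑ a, p i0 a * φ a := by
    rw [Finset.prod_eq_single i0]
    · simp
    · intro i _ hi
      rw [Function.update_of_ne hi, hp]
    · simp
  rw [← h1, h]
  refine Finset.sum_congr rfl fun x _ => ?_
  rw [← Finset.mul_prod_erase _ _ (Finset.mem_univ i0),
    ← Finset.mul_prod_erase _ (fun i => Function.update p i0 (fun a => p i0 a * φ a) i (x i))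
      (Finset.mem_univ i0)]
  have : ∏ i ∈ Finset.univ.erase i0, Function.update p i0 (fun a => p i0 a * φ a) i (x i) =
      ∏ i ∈ Finset.univ.erase i0, p i (x i) := Finset.prod_congr rfl fun i hi => by
    rw [Function.update_of_ne (Finset.ne_of_mem_erase hi)]
  rw [this, Function.update_self]
  ring

theorem prod_sum_one {ι : Type*} [Fintype ι] [DecidableEq ι] {κ : ι → Type*} [∀ i, Fintype (κ i)]
    (p : ∀ i, κ i → ℝ) (hp : ∀ i, ∑ a, p i a = 1) :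
    ∑ x : ∀ i, κ i, (∏ i, p i (x i)) = 1 := by
  rw [← Fintype.prod_sum]
  exact Finset.prod_eq_one fun i _ => hp i

/-- local chain: every template uses its own measure and its own mixture -/
theorem lc (hCL : CLStmt) {d N Nlo : ℕ} {nb : ℕ → Finset ℕ} (hG : Good d N nb) (hd : 1 ≤ d)
    (T : Type) [Fintype T] (k1 k2 : ℕ) (hk : k1 + k2 ≤ d) (f : T → ℕ →₀ ℝ)
    (hf : 1 ≤ k1 → ∀ τ, IsProb (f τ)) (hs : 1 ≤ k1 → ∀ τ u, f τ u ≠ 0 → Nlo ≤ u ∧ u < N)
    (hN : Nlo ≤ N) {Q : ℕ} (hQ : 32 * d ^ 4 ≤ Q) (hQ1 : 1 ≤ Q)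
    (hp : 1 ≤ k1 → ∀ τ u, f τ u ≤ 2 / Q)
    {η : ℝ} (h0 : 0 ≤ η) (h1 : η ≤ 1) (L : ℕ) :
    ∃ (N' : ℕ) (nb' : ℕ → Finset ℕ) (ν : ℕ → T → ℕ →₀ ℝ),
      N ≤ N' ∧ (∀ v < N, nb' v = nb v) ∧ Good d N' nb' ∧
      (∀ j < L, ∀ τ, IsProb (ν j τ)) ∧ (∀ j < L, ∀ τ v, ν j τ v ≠ 0 → N ≤ v ∧ v < N') ∧
      (∀ j < L, ∀ τ v, ν j τ v ≤ 2 / Q) ∧
      (∀ j < L, ∀ τ v, ν j τ v ≠ 0 → ∀ u ∈ nb' v, Nlo ≤ u) ∧
      (∀ j < L, ∀ j' < L, ∀ τ τ' v, ν j τ v ≠ 0 → ν j' τ' v ≠ 0 → τ = τ') ∧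
      (∀ j < L, ∀ τ v, ν j τ v ≠ 0 → ∀ u ∈ nb' v,
        (1 ≤ k1 ∧ f τ u ≠ 0) ∨ ∃ j' < L, ν j' τ u ≠ 0) ∧
      (∀ I : Set ℕ, Indep N' nb' I → ∀ j < L, ∀ τ,
        mass I (ν j τ) ≤ 2 * (1 - mass I (f τ)) ^ k1 *
          (1 - mix η (fun i => mass I (ν i τ)) j) ^ k2) := by
  have hQ' : (0 : ℝ) < Q := by exact_mod_cast hQ1
  have hd' : (1 : ℝ) ≤ d := by exact_mod_cast hd
  obtain ⟨N', nb', ν, a1, a2, a3, a4, a5, a6, a7, a8, a9, a10⟩ :=
    hCL d N nb hG T (Fin k1) k2 (by simpa using hk) (fun τ _ => f τ)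
      (fun τ c => hf (by have := c.2; omega) τ)
      (fun τ c u hu => (hs (by have := c.2; omega) τ u hu).2)
      (fun τ τ' => if τ = τ' then 1 else 0) (fun τ τ' => by split_ifs <;> norm_num)
      (fun τ => by simp) η h0 h1 Q hQ hQ1
      (fun τ c c' => by
        have hk1 : 1 ≤ k1 := by have := c.2; omega
        refine ex_le_of_le (hf hk1 τ) fun u' hu' => ?_
        exact ex_mem_le (hp hk1 τ) _ (hG u' (hs hk1 τ u' hu').2).2.1)
      (fun τ c c' => by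
        have hk1 : 1 ≤ k1 := by have := c.2; omega
        have e : ∑ τ', (if τ = τ' then (1 : ℝ) else 0) * ex (f τ) (fun u => f τ' u) =
            ex (f τ) (fun u => f τ u) := by simp
        refine le_trans (le_of_eq e) ?_
        refine le_trans (ex_le_of_le (hf hk1 τ) fun u _ => hp hk1 τ u) ?_
        gcongr
        linarith) L
  refine ⟨N', nb', ν, a1, a2, a3, a4, a5, a6, ?_, a7, ?_, ?_⟩
  · intro j hj τ v hv u hu
    rcases a8 j hj τ v hv u hu with ⟨c, hc⟩ | ⟨j', hj', τ', -, h⟩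
    · exact (hs (by have := c.2; omega) τ u hc).1
    · exact le_trans hN (a5 j' hj' τ' u h).1
  · intro j hj τ v hv u hu
    rcases a8 j hj τ v hv u hu with ⟨c, hc⟩ | ⟨j', hj', τ', hne, h⟩
    · exact Or.inl ⟨by have := c.2; omega, hc⟩
    · right
      have : τ = τ' := by
        by_contra hh
        exact hne (if_neg hh)
      exact ⟨j', hj', by rw [this]; exact h⟩
  · intro I hI j hj τ
    have := a10 I hI j hj τ
    simpa using this

end Pool.Agent.Helper3.FC
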