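import Pool.Agent.Helper3.FC.Stage

/-!
# Project FC: the classes X and Z', whose templates are choices of one vertex in each copy
-/

set_option autoImplicit false

namespace Pool.Agent.Helper3.FC

open scoped Classical BigOperators
open Finset

/-- groups of the block `l`: one vertex in each of the `w` copies -/
abbrev JJ {n w : ℕ} (μ : Fin n → Fin w → ℕ →₀ ℝ) (l : Fin n) : Type :=
  ∀ k : Fin w, ↥((μ l k).support)

noncomputable def rr {n w : ℕ} (μ : Fin n → Fin w → ℕ →₀ ℝ) (l : Fin n) (i : JJ μ l) : ℝ :=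
  ∏ k, μ l k (i k)

theorem sum_supp {f : ℕ →₀ ℝ} (φ : ℕ → ℝ) : ∑ a : ↥f.support, f a * φ a = ex f φ := by
  rw [ex_eq_sum f φ f.support subset_rfl]
  exact Finset.sum_coe_sort f.support (fun u => f u * φ u)

theorem sum_supp_one {f : ℕ →₀ ℝ} (hf : IsProb f) : ∑ a : ↥f.support, f a = 1 := by
  rw [← hf.2, ← sum_supp]
  exact Finset.sum_congr rfl fun a _ => (mul_one _).symm

theorem rr_nonneg {n w : ℕ} {μ : Fin n → Fin w → ℕ →₀ ℝ} (hμ : ∀ l k, IsProb (μ l k))
    (l : Fin n) (i : JJ μ l) : 0 ≤ rr μ l i := Finset.prod_nonneg fun k _ => (hμ l k).1 _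

theorem rr_sum {n w : ℕ} {μ : Fin n → Fin w → ℕ →₀ ℝ} (hμ : ∀ l k, IsProb (μ l k))
    (l : Fin n) : ∑ i, rr μ l i = 1 :=
  prod_sum_one (κ := fun k : Fin w => ↥((μ l k).support)) (fun k a => μ l k a)
    fun k => sum_supp_one (hμ l k)

theorem rr_marg {n w : ℕ} {μ : Fin n → Fin w → ℕ →₀ ℝ} (hμ : ∀ l k, IsProb (μ l k))
    (l : Fin n) (k : Fin w) (φ : ℕ → ℝ) : ∑ i : JJ μ l, rr μ l i * φ (i k) = ex (μ l k) φ := by
  rw [← sum_supp]
  exact marg (κ := fun k : Fin w => ↥((μ l k).support)) (fun k a => μ l k a)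
    (fun k => sum_supp_one (hμ l k)) k (fun a => φ a)

/-- free mass of a block -/
theorem rr_free {n w : ℕ} {μ : Fin n → Fin w → ℕ →₀ ℝ} (hμ : ∀ l k, IsProb (μ l k))
    (l : Fin n) (I : Set ℕ) : ∑ i : JJ μ l, (if ∀ k, (i k : ℕ) ∉ I then rr μ l i else 0) =
      ∏ k, (1 - mass I (μ l k)) := by
  have h : ∀ k, 1 - mass I (μ l k) =
      ∑ a : ↥((μ l k).support), (if (a : ℕ) ∈ I then 0 else μ l k a) := fun k => by
    have e1 := sum_supp_one (hμ l k)
    have e2 : ∑ a : ↥((μ l k).support), μ l k a * (if (a : ℕ) ∈ I then (1 : ℝ) else 0) =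
      mass I (μ l k) := sum_supp (fun u => if u ∈ I then (1 : ℝ) else 0)
    rw [← e1, ← e2, ← Finset.sum_sub_distrib]
    exact Finset.sum_congr rfl fun a _ => by split_ifs <;> simp
  rw [Finset.prod_congr rfl fun k _ => h k, Fintype.prod_sum]
  refine Finset.sum_congr rfl fun i _ => ?_
  split_ifs with hi
  · exact Finset.prod_congr rfl fun k _ => by rw [if_neg (hi k)]
  · push Not at hi
    obtain ⟨k, hk⟩ := hi
    exact (Finset.prod_eq_zero (Finset.mem_univ k) (by rw [if_pos hk])).symm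

/-- template chain -/
theorem tc (hCL : CLStmt) {d N N0 : ℕ} {nb : ℕ → Finset ℕ} (hG : Good d N nb) (hd : 1 ≤ d)
    {n w : ℕ} (kz k2 : ℕ) (hk : n * w + n * kz + k2 ≤ d) (μ : Fin n → Fin w → ℕ →₀ ℝ)
    (hμ : ∀ l k, IsProb (μ l k)) (hμs : ∀ l k u, μ l k u ≠ 0 → u < N0) (hN : N0 ≤ N)
    {Q : ℕ} (hQ : 32 * d ^ 4 ≤ Q) (hQ1 : 1 ≤ Q) (hμp : ∀ l k u, μ l k u ≤ 2 / Q)
    (hadj : ∀ l k l' k' u u', (l, k) ≠ (l', k') → μ l k u ≠ 0 → μ l' k' u' ≠ 0 → u ∉ nb u')
    (ζ : ∀ l, JJ μ l → ℕ →₀ ℝ) (hζ : 1 ≤ kz → ∀ l i, IsProb (ζ l i))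
    (hζs : 1 ≤ kz → ∀ l i u, ζ l i u ≠ 0 → N0 ≤ u ∧ u < N ∧ ∀ x ∈ nb u, N0 ≤ x)
    (hζp : 1 ≤ kz → ∀ l i u, ζ l i u ≤ 2 / Q)
    {η : ℝ} (h0 : 0 ≤ η) (h1 : η ≤ 1) (L : ℕ) :
    ∃ (N' : ℕ) (nb' : ℕ → Finset ℕ) (ν : ℕ → (∀ l, JJ μ l) → ℕ →₀ ℝ),
      N ≤ N' ∧ (∀ v < N, nb' v = nb v) ∧ Good d N' nb' ∧
      (∀ j < L, ∀ τ, IsProb (ν j τ)) ∧ (∀ j < L, ∀ τ v, ν j τ v ≠ 0 → N ≤ v ∧ v < N') ∧
      (∀ j < L, ∀ τ v, ν j τ v ≤ 2 / Q) ∧
      (∀ I : Set ℕ, Indep N' nb' I → ∀ j < L, ∀ g,
        mass I (ν j g) ≤ 2 * ((if ∀ l k, (g l k : ℕ) ∉ I then 1 else 0) *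
          ∏ l, (1 - mass I (ζ l (g l))) ^ kz) *
          (1 - mix η (fun i => ∑ g' : ∀ l, JJ μ l, (∏ l, rr μ l (g' l)) * mass I (ν i g')) j)
            ^ k2) := by
  have hQ' : (0 : ℝ) < Q := by exact_mod_cast hQ1
  have hd' : (1 : ℝ) ≤ d := by exact_mod_cast hd
  have hbd : (2 : ℝ) / Q ≤ 2 * d / Q := by gcongr; linarith
  have hpos : (0 : ℝ) ≤ 2 / Q := by positivity
  -- base measures
  let base : (∀ l, JJ μ l) → (Fin n × Fin w) ⊕ (Fin n × Fin kz) → ℕ →₀ ℝ := fun g c =>
    Sum.elim (fun c : Fin n × Fin w => Finsupp.single ((g c.1 c.2 : ℕ)) (1 : ℝ))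
      (fun c : Fin n × Fin kz => ζ c.1 (g c.1)) c
  have hgs : ∀ (g : ∀ l, JJ μ l) l k, μ l k (g l k) ≠ 0 := fun g l k =>
    Finsupp.mem_support_iff.1 (g l k).2
  have hker0 : ∀ g : (∀ l, JJ μ l), 0 ≤ ∏ l, rr μ l (g l) := fun g =>
    Finset.prod_nonneg fun l _ => rr_nonneg hμ l _
  have hker1 : ∑ g : (∀ l, JJ μ l), ∏ l, rr μ l (g l) = 1 :=
    prod_sum_one (κ := fun l => JJ μ l) (fun l i => rr μ l i) fun l => rr_sum hμ l
  obtain ⟨N', nb', ν, a1, a2, a3, a4, a5, a6, -, -, -, a10⟩ :=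
    hCL d N nb hG (∀ l, JJ μ l) ((Fin n × Fin w) ⊕ (Fin n × Fin kz)) k2
      (by simpa using hk) base
      (by
        rintro g (c | c)
        · exact isProb_single _
        · exact hζ (by have := c.2.2; omega) _ _)
      (by
        rintro g (c | c) u hu
        · have : u = (g c.1 c.2 : ℕ) := by
            by_contra hne
            exact hu (by simp only [base, Sum.elim_inl]; rw [Finsupp.single_apply, if_neg (Ne.symm hne)])
          rw [this]
          exact lt_of_lt_of_le (hμs _ _ _ (hgs g _ _)) hN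
        · exact (hζs (by have := c.2.2; omega) _ _ u hu).2.1)
      (fun _ g' => ∏ l, rr μ l (g' l)) (fun _ g' => hker0 g') (fun _ => hker1) η h0 h1 Q hQ hQ1
      (by
        rintro g (c | c) (c' | c')
        · simp only [base, Sum.elim_inl, ex_single, one_mul]
          rw [if_neg]
          · positivity
          · by_cases hcc : (c.1, c.2) = (c'.1, c'.2)
            · have h1 : c.1 = c'.1 := (Prod.mk.inj hcc).1
              have h2 : c = c' := hcc
              subst h2
              intro hm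
              exact lt_irrefl _ ((hG _ (lt_of_lt_of_le (hμs _ _ _ (hgs g _ _)) hN)).1 _ hm)
            · exact hadj _ _ _ _ _ _ hcc (hgs g _ _) (hgs g _ _)
        · have hk1 : 1 ≤ kz := by have := c'.2.2; omega
          simp only [base, Sum.elim_inl, Sum.elim_inr, ex_single, one_mul]
          refine le_trans (ex_le_of_le (hζ hk1 _ _) (c := 0) fun z hz => ?_) (by positivity)
          rw [if_neg]
          intro hm
          exact absurd ((hζs hk1 _ _ z hz).2.2 _ hm) (not_le.2 (hμs _ _ _ (hgs g _ _)))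
        · have hk1 : 1 ≤ kz := by have := c.2.2; omega
          simp only [base, Sum.elim_inl, Sum.elim_inr, ex_single, one_mul]
          refine le_trans (ex_le_of_le (hζ hk1 _ _) (c := 0) fun z hz => ?_) (by positivity)
          rw [if_neg]
          intro hm
          have h3 := (hG _ (lt_of_lt_of_le (hμs _ _ _ (hgs g c'.1 c'.2)) hN)).1 _ hm
          have h4 := (hζs hk1 _ _ z hz).1
          have h5 := hμs _ _ _ (hgs g c'.1 c'.2)
          omega
        · have hk1 : 1 ≤ kz := by have := c.2.2; omega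
          simp only [base, Sum.elim_inr]
          refine ex_le_of_le (hζ hk1 _ _) fun z hz => ?_
          exact ex_mem_le (hζp hk1 _ _) _ (hG _ (hζs hk1 _ _ z hz).2.1).2.1)
      (by
        rintro g c c'
        have key : ∀ b : ℝ, 0 ≤ b → b ≤ 2 / Q →
            (∀ g' : (∀ l, JJ μ l), ex (base g c) (fun u => base g' c' u) ≤ b) →
            ∑ g' : (∀ l, JJ μ l), (∏ l, rr μ l (g' l)) * ex (base g c) (fun u => base g' c' u) ≤
              2 * d / Q := by
          intro b hb0 hb h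
          calc ∑ g' : (∀ l, JJ μ l), (∏ l, rr μ l (g' l)) * ex (base g c) (fun u => base g' c' u)
              ≤ ∑ g' : (∀ l, JJ μ l), (∏ l, rr μ l (g' l)) * b :=
                Finset.sum_le_sum fun g' _ => mul_le_mul_of_nonneg_left (h g') (hker0 g')
            _ = b := by rw [← Finset.sum_mul, hker1, one_mul]
            _ ≤ 2 * d / Q := hb.trans hbd
        rcases c with c | c <;> rcases c' with c' | c'
        · -- the sum is the weight of a vertex in a copy
          have e : ∀ g' : (∀ l, JJ μ l), ex (base g (Sum.inl c)) (fun u => base g' (Sum.inl c') u) =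
              (fun u : ℕ => if u = (g c.1 c.2 : ℕ) then (1 : ℝ) else 0) (g' c'.1 c'.2) := by
            intro g'
            simp only [base, Sum.elim_inl, ex_single, one_mul, Finsupp.single_apply]
          have e2 : ∑ g' : (∀ l, JJ μ l), (∏ l, rr μ l (g' l)) *
              ex (base g (Sum.inl c)) (fun u => base g' (Sum.inl c') u) =
              ex (μ c'.1 c'.2) (fun u : ℕ => if u = (g c.1 c.2 : ℕ) then (1 : ℝ) else 0) := by
            rw [← rr_marg hμ c'.1 c'.2,
              ← marg (κ := fun l => JJ μ l) (fun l i => rr μ l i) (fun l => rr_sum hμ l) c'.1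
                (fun i => (fun u : ℕ => if u = (g c.1 c.2 : ℕ) then (1 : ℝ) else 0) (i c'.2))]
            exact Finset.sum_congr rfl fun g' _ => by rw [e g']
          refine le_trans (le_of_eq e2) ?_
          have := ex_mem_le (d := d) (hμp c'.1 c'.2) {(g c.1 c.2 : ℕ)} (by simpa using hd)
          simpa using this
        · have hk1 : 1 ≤ kz := by have := c'.2.2; omega
          refine key 0 le_rfl hpos fun g' => le_of_eq ?_
          simp only [base, Sum.elim_inl, Sum.elim_inr, ex_single, one_mul]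
          by_contra hne
          exact absurd (hζs hk1 _ _ _ hne).1 (not_le.2 (hμs _ _ _ (hgs g _ _)))
        · have hk1 : 1 ≤ kz := by have := c.2.2; omega
          refine key 0 le_rfl hpos fun g' => ?_
          simp only [base, Sum.elim_inl, Sum.elim_inr]
          refine ex_le_of_le (hζ hk1 _ _) fun z hz => le_of_eq ?_
          rw [Finsupp.single_apply, if_neg]
          intro hm
          have h4 := (hζs hk1 _ _ z hz).1
          have h5 := hμs _ _ _ (hgs g' c'.1 c'.2)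
          omega
        · have hk1 : 1 ≤ kz := by have := c.2.2; omega
          refine key (2 / Q) hpos le_rfl fun g' => ?_
          simp only [base, Sum.elim_inr]
          exact ex_le_of_le (hζ hk1 _ _) fun z hz => hζp hk1 _ _ z) L
  refine ⟨N', nb', ν, a1, a2, a3, a4, a5, a6, ?_⟩
  intro I hI j hj g
  have h := a10 I hI j hj g
  have e1 : ∏ c, (1 - mass I (base g c)) = (if ∀ l k, (g l k : ℕ) ∉ I then 1 else 0) *
      ∏ l, (1 - mass I (ζ l (g l))) ^ kz := by
    rw [Fintype.prod_sum_type]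
    congr 1
    · simp only [base, Sum.elim_inl, mass_single]
      split_ifs with hi
      · exact Finset.prod_eq_one fun c _ => by rw [if_neg (hi _ _), sub_zero]
      · push Not at hi
        obtain ⟨l, k, hk⟩ := hi
        exact Finset.prod_eq_zero (Finset.mem_univ (l, k)) (by rw [if_pos hk, sub_self])
    · simp only [base, Sum.elim_inr]
      rw [Fintype.prod_prod_type]
      simp
  rw [e1, mix_sum] at h
  exact h

end Pool.Agent.Helper3.FC
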